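import Mathlib

/-!
# Exhaustive search: binary words avoiding abelian fourth powers have many zeros

A word is `u : ℕ → Bool` (`false` is the letter `0`, `true` the letter `1`). `zc u n` is the number of zeros among
the first `n` letters. `enc u n` packs the numbers `zc u 0, ..., zc u n` into the base `256` digits of a natural
number, `zc u n` being the lowest digit. The search `go` runs through all words `u` with `B * zc u k < A * k` for
all `k ≥ 1` and no abelian fourth power at the beginning. The functions are written with explicit recursors for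
fast evaluation by the kernel.
-/

set_option autoImplicit false

namespace Pool.Agent.ZF21

/-- number of zeros among the first `n` letters -/
def zc (u : ℕ → Bool) : ℕ → ℕ
  | 0 => 0
  | n + 1 => zc u n + (if u n then 0 else 1)

/-- packed list of the numbers of zeros of the initial factors -/
def enc (u : ℕ → Bool) : ℕ → ℕ
  | 0 => 0
  | n + 1 => enc u n * 256 + zc u (n + 1)

/-- digit `j` -/
def dig (Z j : ℕ) : ℕ := Nat.mod (Nat.shiftRight Z (Nat.mul 8 j)) 256

/-- no abelian fourth power of period `p ≤ m` ends at the end of the encoded word (`z` is digit `0`) -/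
def noP (Z z : ℕ) (m : ℕ) : Bool :=
  Nat.rec (motive := fun _ => Bool) true (fun p ih =>
    (fun a => (fun b => cond (Nat.beq (Nat.add z b) (Nat.mul 2 a))
      (cond (Nat.beq (Nat.add a (dig Z (Nat.mul 3 (Nat.succ p)))) (Nat.mul 2 b))
        (cond (Nat.beq (Nat.add b (dig Z (Nat.mul 4 (Nat.succ p)))) (Nat.mul 2 (dig Z (Nat.mul 3 (Nat.succ p)))))
          false ih) ih) ih)
      (dig Z (Nat.mul 2 (Nat.succ p)))) (dig Z (Nat.succ p))) m

/-- the search; `true` means: no word below this node satisfies all conditions up to the maximal depth -/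
def go (A B : ℕ) (f : ℕ) : ℕ → ℕ → ℕ → Bool :=
  Nat.rec (motive := fun _ => ℕ → ℕ → ℕ → Bool) (fun _ _ _ => false) (fun _ ih n z Z =>
    cond (cond (Nat.ble (Nat.mul A (Nat.succ n)) (Nat.mul B z)) true
      (cond (noP (Nat.add (Nat.mul Z 256) z) z (Nat.div (Nat.succ n) 4))
        (ih (Nat.succ n) z (Nat.add (Nat.mul Z 256) z)) true))
     (cond (Nat.ble (Nat.mul A (Nat.succ n)) (Nat.mul B (Nat.succ z))) true
      (cond (noP (Nat.add (Nat.mul Z 256) (Nat.succ z)) (Nat.succ z) (Nat.div (Nat.succ n) 4))
        (ih (Nat.succ n) (Nat.succ z) (Nat.add (Nat.mul Z 256) (Nat.succ z))) true)) false) f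

theorem zc_le (u : ℕ → Bool) (n : ℕ) : zc u n ≤ n := by
  induction n with
  | zero => simp [zc]
  | succ n ih => simp only [zc]; split <;> omega

theorem dig_enc (u : ℕ → Bool) (n : ℕ) (hn : n < 256) (j : ℕ) (hj : j ≤ n) : dig (enc u n) j = zc u (n - j) := by
  have key : ∀ n, n < 256 → ∀ j, j ≤ n → enc u n / 256 ^ j % 256 = zc u (n - j) := by
    intro n
    induction n with
    | zero => intro _ j hj; obtain rfl : j = 0 := by omega
              simp [enc, zc]
    | succ n ih =>
      intro hn j hj
      have hz : zc u (n + 1) < 256 := lt_of_le_of_lt (zc_le u _) hn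
      rcases j with _ | j
      · simp only [enc, pow_zero, Nat.div_one, Nat.sub_zero]; omega
      · have h1 : enc u (n + 1) / 256 ^ (j + 1) = enc u n / 256 ^ j := by
          rw [pow_succ', ← Nat.div_div_eq_div_mul]
          congr 1
          simp only [enc]; omega
        rw [h1, ih (by omega) j (by omega)]
        congr 1; omega
  have h : dig (enc u n) j = enc u n / 256 ^ j % 256 := by
    show (enc u n >>> (8 * j)) % 256 = _
    rw [Nat.shiftRight_eq_div_pow, pow_mul]
    norm_num
  rw [h, key n hn j hj]

theorem noP_succ (Z z p : ℕ) : noP Z z (p + 1) =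
    cond (Nat.beq (z + dig Z (2 * (p + 1))) (2 * dig Z (p + 1)))
      (cond (Nat.beq (dig Z (p + 1) + dig Z (3 * (p + 1))) (2 * dig Z (2 * (p + 1))))
        (cond (Nat.beq (dig Z (2 * (p + 1)) + dig Z (4 * (p + 1))) (2 * dig Z (3 * (p + 1))))
          false (noP Z z p)) (noP Z z p)) (noP Z z p) := rfl

/-- an abelian fourth power of period `p` in terms of the numbers of zeros -/
def Pow4 (u : ℕ → Bool) (i p : ℕ) : Prop :=
  zc u (i + 4 * p) + zc u (i + 2 * p) = 2 * zc u (i + 3 * p) ∧
    zc u (i + 3 * p) + zc u (i + p) = 2 * zc u (i + 2 * p) ∧ zc u (i + 2 * p) + zc u i = 2 * zc u (i + p)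

theorem noP_true (u : ℕ → Bool) (n : ℕ) (hn : n < 256) (h : ∀ i p, 0 < p → ¬ Pow4 u i p) (m : ℕ)
    (hm : 4 * m ≤ n) : noP (enc u n) (zc u n) m = true := by
  induction m with
  | zero => rfl
  | succ p ih =>
    have ih' := ih (by omega)
    rw [noP_succ, ih', dig_enc u n hn _ (by omega), dig_enc u n hn _ (by omega), dig_enc u n hn _ (by omega),
      dig_enc u n hn _ (by omega)]
    have hq := h (n - 4 * (p + 1)) (p + 1) (by omega)
    have e1 : n - 4 * (p + 1) + 4 * (p + 1) = n := by omega
    have e2 : n - 4 * (p + 1) + 3 * (p + 1) = n - (p + 1) := by omega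
    have e3 : n - 4 * (p + 1) + 2 * (p + 1) = n - 2 * (p + 1) := by omega
    have e4 : n - 4 * (p + 1) + (p + 1) = n - 3 * (p + 1) := by omega
    rw [Pow4, e1, e2, e3, e4] at hq
    cases c1 : Nat.beq (zc u n + zc u (n - 2 * (p + 1))) (2 * zc u (n - (p + 1))) with
    | false => rfl
    | true =>
      cases c2 : Nat.beq (zc u (n - (p + 1)) + zc u (n - 3 * (p + 1))) (2 * zc u (n - 2 * (p + 1))) with
      | false => rfl
      | true =>
        cases c3 : Nat.beq (zc u (n - 2 * (p + 1)) + zc u (n - 4 * (p + 1))) (2 * zc u (n - 3 * (p + 1))) with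
        | false => rfl
        | true =>
          exact absurd ⟨Nat.eq_of_beq_eq_true c1, Nat.eq_of_beq_eq_true c2, Nat.eq_of_beq_eq_true c3⟩ hq

theorem go_succ (A B f n z Z : ℕ) : go A B (f + 1) n z Z =
    cond (cond (Nat.ble (A * (n + 1)) (B * z)) true
      (cond (noP (Z * 256 + z) z ((n + 1) / 4)) (go A B f (n + 1) z (Z * 256 + z)) true))
     (cond (Nat.ble (A * (n + 1)) (B * (z + 1))) true
      (cond (noP (Z * 256 + (z + 1)) (z + 1) ((n + 1) / 4))
        (go A B f (n + 1) (z + 1) (Z * 256 + (z + 1))) true)) false := rfl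

theorem go_sound (A B : ℕ) (u : ℕ → Bool) (h : ∀ i p, 0 < p → ¬ Pow4 u i p) (f : ℕ) :
    ∀ n, n + f < 256 → go A B f n (zc u n) (enc u n) = true →
      ∃ k, n < k ∧ k ≤ n + f ∧ A * k ≤ B * zc u k := by
  induction f with
  | zero => intro n _ hgo; exact absurd hgo (by simp [go])
  | succ f ih =>
    intro n hn hgo
    rw [go_succ] at hgo
    have step : ∀ z', zc u (n + 1) = z' → (cond (Nat.ble (A * (n + 1)) (B * z')) true
      (cond (noP (enc u n * 256 + z') z' ((n + 1) / 4)) (go A B f (n + 1) z' (enc u n * 256 + z')) true)) = true →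
        ∃ k, n < k ∧ k ≤ n + (f + 1) ∧ A * k ≤ B * zc u k := by
      rintro z' rfl hc
      have he : enc u n * 256 + zc u (n + 1) = enc u (n + 1) := rfl
      rw [he, noP_true u (n + 1) (by omega) h _ (by omega)] at hc
      cases c1 : Nat.ble (A * (n + 1)) (B * zc u (n + 1)) with
      | true => exact ⟨n + 1, by omega, by omega, Nat.le_of_ble_eq_true c1⟩
      | false =>
        rw [c1] at hc
        obtain ⟨k, h1, h2, h3⟩ := ih (n + 1) (by omega) hc
        exact ⟨k, by omega, by omega, h3⟩
    cases hu : u n with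
    | true =>
      have hz : zc u (n + 1) = zc u n := by simp [zc, hu]
      refine step _ hz ?_
      by_contra hne
      rw [Bool.not_eq_true] at hne
      rw [hne] at hgo
      exact absurd hgo (by simp)
    | false =>
      have hz : zc u (n + 1) = zc u n + 1 := by simp [zc, hu]
      refine step _ hz ?_
      by_contra hne
      rw [Bool.not_eq_true] at hne
      rw [hne] at hgo
      revert hgo
      generalize (cond (Nat.ble (A * (n + 1)) (B * zc u n)) true
        (cond (noP (enc u n * 256 + zc u n) (zc u n) ((n + 1) / 4))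
          (go A B f (n + 1) (zc u n) (enc u n * 256 + zc u n)) true)) = c
      cases c <;> simp

theorem search : go 21 58 113 0 0 0 = true := by decide +kernel

/-- a word without abelian fourth powers has an initial factor of length at most `113` with frequency of `0` at
least `21/58` -/
theorem exists_dense (u : ℕ → Bool) (h : ∀ i p, 0 < p → ¬ Pow4 u i p) :
    ∃ k, 0 < k ∧ k ≤ 113 ∧ 21 * k ≤ 58 * zc u k := by
  have := go_sound 21 58 u h 113 0 (by omega) search
  simpa using this

end Pool.Agent.ZF21
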